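import Pool.Agent.WLR.Runner

set_option autoImplicit false

namespace Pool.Agent.Results.MP_10ddbf_co.ConstantFactor

/-- Weak lonely runner with a constant factor over the union bound: for `n ≥ 3` distinct real
speeds and every `δ` with `δ (19 n - 22) < 10` there are a time and a runner at distance at least
`δ` from all the others. -/
theorem result (n : ℕ) (hn : 3 ≤ n) (v : Fin n → ℝ) (hv : Function.Injective v) (δ : ℝ)
    (hδ : δ * (19 * (n : ℝ) - 22) < 10) :
    ∃ t : ℝ, ∃ j : Fin n, ∀ i : Fin n, i ≠ j →
      δ ≤ |t * (v i - v j) - (round (t * (v i - v j)) : ℝ)| :=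
  Pool.WLR.weak_lonely n hn v hv δ hδ

end Pool.Agent.Results.MP_10ddbf_co.ConstantFactor
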