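import Pool.Agent.WLR4.Real

set_option autoImplicit false

namespace Pool.Agent.Results.MP_10ddbf_co.FinitelyManySpeeds

/-- For every `n` the weak lonely runner conjecture can fail only for finitely many speed vectors
up to affine maps. Let `K ≥ 1` and `d < 1 / (n - 1) - 1 / K`. For `n` distinct real speeds either
some runner is at some time at distance at least `d` from all the others, or the speeds are
`a * u i + b` with integers `0 ≤ u i ≤ K ^ (n - 2)`. (For `d = 1 / n` take `K = n (n - 1) + 1`.) -/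
theorem result :
    ∀ (n K : ℕ) (d : ℝ) (v : Fin n → ℝ), 1 ≤ K → Function.Injective v →
      d < 1 / ((n : ℝ) - 1) - 1 / (K : ℝ) →
      (∃ t : ℝ, ∃ j : Fin n, ∀ i : Fin n, i ≠ j →
        d ≤ |t * (v i - v j) - (round (t * (v i - v j)) : ℝ)|) ∨
      ∃ (a b : ℝ) (u : Fin n → ℕ), (∀ i, u i ≤ K ^ (n - 2)) ∧ ∀ i, v i = a * (u i : ℝ) + b := by
  intro n K d v hK hv hd
  exact WLR4.main hK d hd v hv

end Pool.Agent.Results.MP_10ddbf_co.FinitelyManySpeeds
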