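import Pool.Agent.WLR2.Part

set_option autoImplicit false

namespace Pool.Agent.Results.MP_10ddbf_co.ManyClasses

/-- At some time the runners split into at least `(n + 5) / 9` classes which are pairwise at distance
at least `1 / n`; at some time a nonempty set of at most 8 runners is at distance at least `1 / n`
from all the others; and the same with other distances. -/
theorem result (n : ℕ) (hn : 3 ≤ n) (v : Fin n → ℝ) (hv : Function.Injective v) :
    (∃ t : ℝ, ∃ k : ℕ, ((n : ℝ) + 5) / 9 ≤ k ∧ ∃ c : Fin n → Fin k, Function.Surjective c ∧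
      ∀ i j, c i ≠ c j → 1 / (n : ℝ) ≤ |t * (v i - v j) - (round (t * (v i - v j)) : ℝ)|) ∧
    (∃ t : ℝ, ∃ S : Finset (Fin n), S.Nonempty ∧ S.card ≤ 8 ∧ ∀ i ∈ S, ∀ j ∉ S,
      1 / (n : ℝ) ≤ |t * (v i - v j) - (round (t * (v i - v j)) : ℝ)|) ∧
    (∀ d : ℝ, 0 < d → ∃ t : ℝ, ∃ k : ℕ, (n : ℝ) * (6 - 5 * (d * ((n : ℝ) - 1))) / 9 ≤ k ∧
      ∃ c : Fin n → Fin k, Function.Surjective c ∧
        ∀ i j, c i ≠ c j → d ≤ |t * (v i - v j) - (round (t * (v i - v j)) : ℝ)|) ∧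
    (∀ m : ℕ, 1 ≤ m → ∀ d : ℝ, (d * ((n : ℝ) - 1) < 1 - 1 / ((m : ℝ) + 1) ∨
        d * ((n : ℝ) - 1) < 6 / 5 - 9 / (5 * ((m : ℝ) + 1))) →
      ∃ t : ℝ, ∃ S : Finset (Fin n), S.Nonempty ∧ S.card ≤ m ∧ ∀ i ∈ S, ∀ j ∉ S,
        d ≤ |t * (v i - v j) - (round (t * (v i - v j)) : ℝ)|) := by
  have hn0 : (0 : ℝ) < n := by
    have : (3 : ℝ) ≤ n := by exact_mod_cast hn
    linarith
  refine ⟨?_, ?_, ?_, ?_⟩
  · obtain ⟨t, k, h1, h2⟩ := Pool.Agent.WLR2.many_classes n hn v hv (1 / (n : ℝ)) (by positivity)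
    refine ⟨t, k, ?_, h2⟩
    refine le_trans (le_of_eq ?_) h1
    field_simp
    ring
  · refine Pool.Agent.WLR2.small_sets n (by omega) v hv 8 (by norm_num) (1 / (n : ℝ)) (Or.inr ?_)
    have h1 : 1 / (n : ℝ) * ((n : ℝ) - 1) = 1 - 1 / n := by
      field_simp
    have h2 : 0 < 1 / (n : ℝ) := by positivity
    rw [h1]
    norm_num
    linarith
  · intro d hd
    exact Pool.Agent.WLR2.many_classes n hn v hv d hd
  · intro m hm d hd
    exact Pool.Agent.WLR2.small_sets n (by omega) v hv m hm d hd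

end Pool.Agent.Results.MP_10ddbf_co.ManyClasses
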