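import Pool.Agent.WLR3.Main

set_option autoImplicit false

namespace Pool.Agent.Results.MP_10ddbf_co.PrimeModulus

/-- Weak lonely runner with two thirds of the conjectured distance: let `q` be a prime and
`1 ≤ n ≤ q`. For `n` distinct real speeds and every `d < 2 / (3 q)` some runner is at some time at
distance at least `d` from all the others; for integer speeds this holds with `d = 2 / (3 q)`. -/
theorem result :
    (∀ n q : ℕ, q.Prime → 1 ≤ n → n ≤ q → ∀ v : Fin n → ℝ, Function.Injective v →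
      ∀ d : ℝ, d < 2 / (3 * (q : ℝ)) → ∃ t : ℝ, ∃ j : Fin n, ∀ i : Fin n, i ≠ j →
        d ≤ |t * (v i - v j) - (round (t * (v i - v j)) : ℝ)|) ∧
    (∀ n q : ℕ, q.Prime → 1 ≤ n → n ≤ q → ∀ w : Fin n → ℤ, Function.Injective w →
      ∃ t : ℝ, ∃ j : Fin n, ∀ i : Fin n, i ≠ j →
        2 / (3 * (q : ℝ)) ≤ |t * ((w i : ℝ) - w j) - (round (t * ((w i : ℝ) - w j)) : ℝ)|) := by
  refine ⟨fun n q hq hn hnq v hv d hd => ?_, fun n q hq hn hnq w hw => ?_⟩
  · have hq0 : (0 : ℝ) < q := by exact_mod_cast hq.pos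
    rw [lt_div_iff₀ (by positivity)] at hd
    exact WLR3.lonely_real n q hq hn hnq v hv d (by linarith)
  · have hq0 : (0 : ℝ) < q := by exact_mod_cast hq.pos
    obtain ⟨t, -, -, j, hj⟩ := WLR3.lonely_int' n q hq hn hnq w hw (2 / (3 * (q : ℝ)))
      (le_of_eq (by field_simp))
    exact ⟨t, j, hj⟩

end Pool.Agent.Results.MP_10ddbf_co.PrimeModulus
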